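import Pool.Agent.Lib_helper97.PENT.Defs

/-!
# PENT block T5: the class of the same chords (helper83)
-/

set_option autoImplicit false

namespace Pool.Agent.PENT

open Finset

/-- the size of `c` -/
theorem t5_c {X a b c : ℤ} (hX : 1 ≤ X) (ha1 : X < a) (ha2 : a ≤ 2 * X) (hb1 : X < b)
    (hb2 : b ≤ 2 * X) (h : a * c - b ^ 2 = 1) : X < 2 * c ∧ c ≤ 4 * X := by
  constructor
  · by_contra hc
    push Not at hc
    have h1 : a * (2 * c) ≤ a * X := mul_le_mul_of_nonneg_left hc (by linarith)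
    have h2 : a * X ≤ 2 * X * X := mul_le_mul_of_nonneg_right ha2 (by linarith)
    nlinarith
  · by_contra hc
    push Not at hc
    have h1 : a * (4 * X + 1) ≤ a * c := mul_le_mul_of_nonneg_left (by linarith) (by linarith)
    have h2 : (X + 1) * (4 * X + 1) ≤ a * (4 * X + 1) :=
      mul_le_mul_of_nonneg_right (by linarith) (by linarith)
    nlinarith

theorem t5_qlow {X a b c : ℤ} (hX : 1 ≤ X) (ha1 : X < a) (hb1 : X < b) (hc : X < 2 * c)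
    {u : ℤ × ℤ} (h1 : 0 < u.1) (h2 : 0 < u.2) : X * nm u ^ 2 ≤ 2 * qf a b c u := by
  unfold nm qf
  have e1 : X * u.1 ^ 2 ≤ a * u.1 ^ 2 := mul_le_mul_of_nonneg_right ha1.le (sq_nonneg _)
  have e2 : X * u.2 ^ 2 ≤ 2 * c * u.2 ^ 2 := mul_le_mul_of_nonneg_right hc.le (sq_nonneg _)
  have e3 : X * (u.1 * u.2) ≤ b * (u.1 * u.2) :=
    mul_le_mul_of_nonneg_right hb1.le (mul_pos h1 h2).le
  have e4 : 0 ≤ X * u.1 ^ 2 := mul_nonneg (by linarith) (sq_nonneg _)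
  have e5 : 0 ≤ X * (u.1 * u.2) := mul_nonneg (by linarith) (mul_pos h1 h2).le
  nlinarith

theorem t5_qupp {X a b c : ℤ} (hX : 1 ≤ X) (ha2 : a ≤ 2 * X) (hb2 : b ≤ 2 * X) (hc : c ≤ 4 * X)
    {u : ℤ × ℤ} (h1 : 0 < u.1) (h2 : 0 < u.2) : qf a b c u ≤ 4 * X * nm u ^ 2 := by
  unfold nm qf
  have e1 : a * u.1 ^ 2 ≤ 2 * X * u.1 ^ 2 := mul_le_mul_of_nonneg_right ha2 (sq_nonneg _)
  have e2 : c * u.2 ^ 2 ≤ 4 * X * u.2 ^ 2 := mul_le_mul_of_nonneg_right hc (sq_nonneg _)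
  have e3 : b * (u.1 * u.2) ≤ 2 * X * (u.1 * u.2) :=
    mul_le_mul_of_nonneg_right hb2 (mul_pos h1 h2).le
  have e4 : 0 ≤ X * u.1 ^ 2 := mul_nonneg (by linarith) (sq_nonneg _)
  have e5 : 0 ≤ X * (u.1 * u.2) := mul_nonneg (by linarith) (mul_pos h1 h2).le
  nlinarith

/-- equal values give comparable norms -/
theorem t5_nm {X a b c a' b' c' : ℤ} (hX : 1 ≤ X) (ha1 : X < a) (ha2 : a ≤ 2 * X) (hb1 : X < b)
    (hb2 : b ≤ 2 * X) (h : a * c - b ^ 2 = 1) (ha1' : X < a') (ha2' : a' ≤ 2 * X) (hb1' : X < b')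
    (hb2' : b' ≤ 2 * X) (h' : a' * c' - b' ^ 2 = 1) {u u' : ℤ × ℤ} (h1 : 0 < u.1) (h2 : 0 < u.2)
    (h1' : 0 < u'.1) (h2' : 0 < u'.2) (he : qf a' b' c' u' = qf a b c u) : nm u' ≤ 3 * nm u := by
  have c1 := t5_c hX ha1 ha2 hb1 hb2 h
  have c2 := t5_c hX ha1' ha2' hb1' hb2' h'
  have e1 := t5_qupp hX ha2 hb2 c1.2 h1 h2
  have e2 := t5_qlow hX ha1' hb1' c2.1 h1' h2'
  rw [he] at e2
  have p1 : 0 < nm u := by unfold nm; linarith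
  have e3 : X * nm u' ^ 2 ≤ X * (8 * nm u ^ 2) := by nlinarith
  have e4 : nm u' ^ 2 ≤ 8 * nm u ^ 2 := le_of_mul_le_mul_left e3 (by linarith)
  by_contra hc
  push Not at hc
  have e5 : (3 * nm u) ^ 2 ≤ nm u' ^ 2 := pow_le_pow_left₀ (by linarith) hc.le 2
  nlinarith [sq_nonneg (nm u), mul_pos p1 p1]

/-- the row of the matrix is integral -/
theorem t5_int {v0 v1 v2 : ℤ × ℤ} {x0 x1 : ℤ} (hc : IsCoprime (dt v0 v1) (dt v1 v2))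
    (h : dt v0 v1 ∣ dt v2 v1 * x0 + dt v0 v2 * x1) :
    dt v0 v1 ∣ x0 * v1.2 - x1 * v0.2 ∧ dt v0 v1 ∣ x1 * v0.1 - x0 * v1.1 := by
  obtain ⟨m, hm⟩ := h
  constructor
  · apply hc.dvd_of_dvd_mul_right
    refine ⟨x1 * v2.2 - m * v1.2, ?_⟩
    unfold dt at hm ⊢
    linear_combination (-v1.2) * hm
  · apply hc.dvd_of_dvd_mul_right
    refine ⟨m * v1.1 - x1 * v2.1, ?_⟩
    unfold dt at hm ⊢
    linear_combination v1.1 * hm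

/-- the size of the row -/
theorem t5_size {v0 v1 : ℤ × ℤ} {x0 x1 z : ℤ} {c : ℝ} (hc : 0 < c) (h01 : 0 < v0.1)
    (h02 : 0 < v0.2) (h11 : 0 < v1.1) (h12 : 0 < v1.2) (hx0 : 0 < x0) (hx1 : 0 < x1)
    (hb0 : x0 ≤ 3 * nm v0) (hb1 : x1 ≤ 3 * nm v1)
    (hs : c * ((nm v0 : ℝ) * (nm v1 : ℝ)) ≤ |(dt v0 v1 : ℝ)|) (h0 : dt v0 v1 ≠ 0)
    (hz : dt v0 v1 * z = x0 * v1.2 - x1 * v0.2 ∨ dt v0 v1 * z = x1 * v0.1 - x0 * v1.1) :
    (|z| : ℝ) ≤ 6 / c := by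
  have n0 : v0.1 ≤ nm v0 := by unfold nm; linarith
  have n0' : v0.2 ≤ nm v0 := by unfold nm; linarith
  have n1 : v1.1 ≤ nm v1 := by unfold nm; linarith
  have n1' : v1.2 ≤ nm v1 := by unfold nm; linarith
  have p0 : 0 < nm v0 := by linarith
  have p1 : 0 < nm v1 := by linarith
  have e1 : |dt v0 v1 * z| ≤ 6 * (nm v0 * nm v1) := by
    rcases hz with hz | hz
    · rw [hz]
      have a1 : x0 * v1.2 ≤ 3 * nm v0 * nm v1 :=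
        mul_le_mul hb0 n1' h12.le (by linarith)
      have a2 : x1 * v0.2 ≤ 3 * nm v1 * nm v0 :=
        mul_le_mul hb1 n0' h02.le (by linarith)
      have a3 : 0 < x0 * v1.2 := mul_pos hx0 h12
      have a4 : 0 < x1 * v0.2 := mul_pos hx1 h02
      have a5 : 0 < nm v0 * nm v1 := mul_pos p0 p1
      rw [abs_le]
      constructor <;> nlinarith
    · rw [hz]
      have a1 : x0 * v1.1 ≤ 3 * nm v0 * nm v1 :=
        mul_le_mul hb0 n1 h11.le (by linarith)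
      have a2 : x1 * v0.1 ≤ 3 * nm v1 * nm v0 :=
        mul_le_mul hb1 n0 h01.le (by linarith)
      have a3 : 0 < x0 * v1.1 := mul_pos hx0 h11
      have a4 : 0 < x1 * v0.1 := mul_pos hx1 h01
      have a5 : 0 < nm v0 * nm v1 := mul_pos p0 p1
      rw [abs_le]
      constructor <;> nlinarith
  have e2 : |(dt v0 v1 : ℝ)| * |(z : ℝ)| ≤ 6 * ((nm v0 : ℝ) * (nm v1 : ℝ)) := by
    rw [← abs_mul]
    exact_mod_cast e1
  have hd : 0 < |(dt v0 v1 : ℝ)| := abs_pos.2 (by exact_mod_cast h0)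
  rw [le_div_iff₀ hc]
  have e3 : c * (|(dt v0 v1 : ℝ)| * |(z : ℝ)|) ≤ 6 * |(dt v0 v1 : ℝ)| := by
    calc c * (|(dt v0 v1 : ℝ)| * |(z : ℝ)|) ≤ c * (6 * ((nm v0 : ℝ) * (nm v1 : ℝ))) :=
          mul_le_mul_of_nonneg_left e2 hc.le
      _ = 6 * (c * ((nm v0 : ℝ) * (nm v1 : ℝ))) := by ring
      _ ≤ 6 * |(dt v0 v1 : ℝ)| := by linarith
  have e4 : |(dt v0 v1 : ℝ)| * (|(z : ℝ)| * c) ≤ |(dt v0 v1 : ℝ)| * 6 := by nlinarith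
  exact le_of_mul_le_mul_left e4 hd

/-- the pentagon of a matrix -/
def t5_phi (τ : Pol 5) (U : (ℤ × ℤ) × (ℤ × ℤ)) : Pol 5 where
  a := τ.a * U.2.2 ^ 2 - 2 * τ.b * U.2.2 * U.2.1 + τ.c * U.2.1 ^ 2
  b := -(τ.a * U.2.2 * U.1.2) + τ.b * (U.2.2 * U.1.1 + U.2.1 * U.1.2) - τ.c * U.2.1 * U.1.1
  c := τ.a * U.1.2 ^ 2 - 2 * τ.b * U.1.2 * U.1.1 + τ.c * U.1.1 ^ 2
  u := fun k => (|U.1.1 * (τ.u k).1 + U.1.2 * (τ.u k).2|,
    |U.2.1 * (τ.u k).1 + U.2.2 * (τ.u k).2|)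

/-- the data of the pair -/
theorem t5_data {p : Par} {X : ℕ} {τ τ' : Pol 5} (h : p.TS X τ) (h' : p.TS X τ')
    (hb : τ'.base = τ.base)
    (hs : ∀ k : Fin 5, k = 2 ∨ k = 3 ∨ k = 4 → τ'.ch k = τ.ch k ∨ τ'.ch k = -τ.ch k) :
    (∀ j, (τ'.d j).natAbs = (τ.d j).natAbs) ∧ (∀ j, τ'.q j = τ.q j) ∧
      bf τ'.a τ'.b τ'.c (τ'.u 0) (τ'.u 1) = bf τ.a τ.b τ.c (τ.u 0) (τ.u 1) := by
  have hX0 : (0 : ℤ) ≤ X := Int.natCast_nonneg X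
  -- the determinants
  have dch : ∀ (i j : Fin 5), (i = 2 ∨ i = 3 ∨ i = 4) → (j = 2 ∨ j = 3 ∨ j = 4) →
      (dt (τ'.ch i) (τ'.ch j)).natAbs = (dt (τ.ch i) (τ.ch j)).natAbs := by
    intro i j hi hj
    rcases hs i hi with e1 | e1 <;> rcases hs j hj with e2 | e2 <;> rw [e1, e2]
    · have : dt (τ.ch i) (-τ.ch j) = -dt (τ.ch i) (τ.ch j) := by
        unfold dt; simp only [Prod.fst_neg, Prod.snd_neg]; ring
      rw [this, Int.natAbs_neg]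
    · have : dt (-τ.ch i) (τ.ch j) = -dt (τ.ch i) (τ.ch j) := by
        unfold dt; simp only [Prod.fst_neg, Prod.snd_neg]; ring
      rw [this, Int.natAbs_neg]
    · have : dt (-τ.ch i) (-τ.ch j) = dt (τ.ch i) (τ.ch j) := by
        unfold dt; simp only [Prod.fst_neg, Prod.snd_neg]; ring
      rw [this]
  have pl2 : ∀ σ : Pol 5, dt (σ.ch 2) (σ.ch 3) = σ.d 0 * σ.d 2 := by
    intro σ
    show dt (dt (σ.u 2) (σ.u 1), dt (σ.u 0) (σ.u 2)) (dt (σ.u 3) (σ.u 1), dt (σ.u 0) (σ.u 3)) =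
      dt (σ.u 0) (σ.u 1) * dt (σ.u 2) (σ.u 3)
    unfold dt
    ring
  have pl3 : ∀ σ : Pol 5, dt (σ.ch 3) (σ.ch 4) = σ.d 0 * σ.d 3 := by
    intro σ
    show dt (dt (σ.u 3) (σ.u 1), dt (σ.u 0) (σ.u 3)) (dt (σ.u 4) (σ.u 1), dt (σ.u 0) (σ.u 4)) =
      dt (σ.u 0) (σ.u 1) * dt (σ.u 3) (σ.u 4)
    unfold dt
    ring
  have m2 : (τ'.d 0).natAbs * (τ'.d 2).natAbs = (τ.d 0).natAbs * (τ.d 2).natAbs := by
    have := dch 2 3 (by simp) (by simp)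
    rw [pl2, pl2, Int.natAbs_mul, Int.natAbs_mul] at this
    exact this
  have m3 : (τ'.d 0).natAbs * (τ'.d 3).natAbs = (τ.d 0).natAbs * (τ.d 3).natAbs := by
    have := dch 3 4 (by simp) (by simp)
    rw [pl3, pl3, Int.natAbs_mul, Int.natAbs_mul] at this
    exact this
  have cop : ∀ σ : Pol 5, p.TS X σ → Nat.gcd (σ.d 2).natAbs (σ.d 3).natAbs = 1 := by
    intro σ hσ
    have := hσ.gp.cop 2 3 (by decide)
    rw [Int.isCoprime_iff_gcd_eq_one] at this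
    exact this
  have d0 : (τ'.d 0).natAbs = (τ.d 0).natAbs := by
    have e1 : Nat.gcd ((τ'.d 0).natAbs * (τ'.d 2).natAbs) ((τ'.d 0).natAbs * (τ'.d 3).natAbs) =
        Nat.gcd ((τ.d 0).natAbs * (τ.d 2).natAbs) ((τ.d 0).natAbs * (τ.d 3).natAbs) := by
      rw [m2, m3]
    rw [Nat.gcd_mul_left, Nat.gcd_mul_left, cop τ h, cop τ' h', mul_one, mul_one] at e1
    exact e1
  have hd0 : 0 < (τ.d 0).natAbs := Int.natAbs_pos.2 (h.good.ne 0)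
  have hd : ∀ j, (τ'.d j).natAbs = (τ.d j).natAbs := by
    intro j
    fin_cases j
    · exact d0
    · show (τ'.d 1).natAbs = (τ.d 1).natAbs
      have e1 : ∀ σ : Pol 5, (σ.d 1).natAbs = (σ.ch 2).1.natAbs := by
        intro σ
        show (dt (σ.u 1) (σ.u 2)).natAbs = (dt (σ.u 2) (σ.u 1)).natAbs
        rw [← Int.natAbs_neg]
        congr 1
        unfold dt
        ring
      rw [e1, e1]
      rcases hs 2 (by simp) with e2 | e2 <;> rw [e2]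
      rw [Prod.fst_neg, Int.natAbs_neg]
    · show (τ'.d 2).natAbs = (τ.d 2).natAbs
      rw [d0] at m2
      exact Nat.eq_of_mul_eq_mul_left hd0 m2
    · show (τ'.d 3).natAbs = (τ.d 3).natAbs
      rw [d0] at m3
      exact Nat.eq_of_mul_eq_mul_left hd0 m3
    · show (τ'.d 4).natAbs = (τ.d 4).natAbs
      have e1 : ∀ σ : Pol 5, (σ.d 4).natAbs = (σ.ch 4).2.natAbs := by
        intro σ
        show (dt (σ.u 4) (σ.u 0)).natAbs = (dt (σ.u 0) (σ.u 4)).natAbs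
        rw [← Int.natAbs_neg]
        congr 1
        unfold dt
        ring
      rw [e1, e1]
      rcases hs 4 (by simp) with e2 | e2 <;> rw [e2]
      rw [Prod.snd_neg, Int.natAbs_neg]
  -- positivity
  have pos : ∀ σ : Pol 5, p.TS X σ → 0 < σ.a ∧ 0 < σ.b ∧ 0 < σ.c := by
    intro σ hσ
    have a0 : 0 < σ.a := lt_of_le_of_lt hX0 hσ.ha1
    have b0 : 0 < σ.b := lt_of_le_of_lt hX0 hσ.hb1
    refine ⟨a0, b0, ?_⟩
    have h1 : 0 < σ.a * σ.c := by nlinarith [hσ.good.disc]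
    exact (mul_pos_iff_of_pos_left a0).1 h1
  have qpos : ∀ σ : Pol 5, p.TS X σ → ∀ j, 0 < σ.q j := by
    intro σ hσ j
    obtain ⟨a0, b0, c0⟩ := pos σ hσ
    have u1 := hσ.gp.pos1 j
    have u2 := hσ.gp.pos2 j
    unfold Pol.q qf
    positivity
  have bpos : ∀ σ : Pol 5, p.TS X σ → 0 < bf σ.a σ.b σ.c (σ.u 0) (σ.u 1) := by
    intro σ hσ
    obtain ⟨a0, b0, c0⟩ := pos σ hσ
    have u1 := hσ.gp.pos1 0
    have u2 := hσ.gp.pos2 0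
    have v1 := hσ.gp.pos1 1
    have v2 := hσ.gp.pos2 1
    unfold bf
    positivity
  unfold Pol.base at hb
  rw [Prod.mk.injEq, Prod.mk.injEq] at hb
  obtain ⟨b1, b2, b3⟩ := hb
  have q0 : τ'.q 0 = τ.q 0 := by
    have e1 : ∀ σ : Pol 5, p.TS X σ → (σ.q 0).natAbs =
        (σ.q 0).natAbs / (σ.d 0).natAbs * (σ.d 0).natAbs := by
      intro σ hσ
      exact (Nat.div_mul_cancel (Int.natAbs_dvd_natAbs.2 (hσ.good.d1 0))).symm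
    have e2 : (τ'.q 0).natAbs = (τ.q 0).natAbs := by
      rw [e1 τ h, e1 τ' h', b1, d0]
    have e3 := qpos τ h 0
    have e4 := qpos τ' h' 0
    omega
  have q1 : τ'.q 1 = τ.q 1 := by
    have e1 : ∀ σ : Pol 5, p.TS X σ → (σ.q 1).natAbs =
        (σ.q 1).natAbs / (σ.d 0).natAbs * (σ.d 0).natAbs := by
      intro σ hσ
      exact (Nat.div_mul_cancel (Int.natAbs_dvd_natAbs.2 (hσ.good.d2 0))).symm
    have e2 : (τ'.q 1).natAbs = (τ.q 1).natAbs := by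
      rw [e1 τ h, e1 τ' h', b3, d0]
    have e3 := qpos τ h 1
    have e4 := qpos τ' h' 1
    omega
  have hbf : bf τ'.a τ'.b τ'.c (τ'.u 0) (τ'.u 1) = bf τ.a τ.b τ.c (τ.u 0) (τ.u 1) := by
    have e1 : ∀ σ : Pol 5, p.TS X σ → (bf σ.a σ.b σ.c (σ.u 0) (σ.u 1)).natAbs =
        σ.n 0 * (σ.d 0).natAbs := by
      intro σ hσ
      have := congrArg Int.natAbs (hσ.good.bf_eq 0)
      rw [Int.natAbs_mul] at this
      exact this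
    have e2 : (bf τ'.a τ'.b τ'.c (τ'.u 0) (τ'.u 1)).natAbs =
        (bf τ.a τ.b τ.c (τ.u 0) (τ.u 1)).natAbs := by
      rw [e1 τ h, e1 τ' h', b2, d0]
    have e3 := bpos τ h
    have e4 := bpos τ' h'
    omega
  refine ⟨hd, ?_, hbf⟩
  have dsq : τ'.d 0 ^ 2 = τ.d 0 ^ 2 := by
    rw [← Int.natAbs_sq (τ'.d 0), ← Int.natAbs_sq (τ.d 0), d0]
  have key : ∀ (σ : Pol 5) (k : Fin 5), σ.d 0 ^ 2 * σ.q k = (σ.ch k).1 ^ 2 * σ.q 0 +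
      2 * (σ.ch k).1 * (σ.ch k).2 * bf σ.a σ.b σ.c (σ.u 0) (σ.u 1) + (σ.ch k).2 ^ 2 * σ.q 1 := by
    intro σ k
    show dt (σ.u 0) (σ.u 1) ^ 2 * qf σ.a σ.b σ.c (σ.u k) =
      dt (σ.u k) (σ.u 1) ^ 2 * qf σ.a σ.b σ.c (σ.u 0) +
      2 * dt (σ.u k) (σ.u 1) * dt (σ.u 0) (σ.u k) * bf σ.a σ.b σ.c (σ.u 0) (σ.u 1) +
      dt (σ.u 0) (σ.u k) ^ 2 * qf σ.a σ.b σ.c (σ.u 1)
    unfold dt qf bf
    ring
  have hk : ∀ k : Fin 5, (k = 2 ∨ k = 3 ∨ k = 4) → τ'.q k = τ.q k := by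
    intro k hk
    have e1 : τ.d 0 ^ 2 * τ'.q k = τ.d 0 ^ 2 * τ.q k := by
      rw [← dsq, key τ' k, dsq, key τ k, q0, q1, hbf]
      rcases hs k hk with e2 | e2 <;> rw [e2]
      simp only [Prod.fst_neg, Prod.snd_neg]
      ring
    exact mul_left_cancel₀ (pow_ne_zero 2 (h.good.ne 0)) e1
  intro j
  fin_cases j
  · exact q0
  · exact q1
  · exact hk 2 (by simp)
  · exact hk 3 (by simp)
  · exact hk 4 (by simp)

/-- the weights agree -/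
theorem t5_w {p : Par} {X : ℕ} {τ τ' : Pol 5} (hd : ∀ j, (τ'.d j).natAbs = (τ.d j).natAbs)
    (hq : ∀ j, τ'.q j = τ.q j) : p.w X τ' = p.w X τ := by
  unfold Par.w Pol.y
  apply Finset.prod_congr rfl
  intro j _
  rw [hd, hd, hq]

/-- block T5: the class of the same chords -/
theorem same_class_pr {p : Par} {κ : ℝ} (h : p.Ok κ) :
    ∃ m : ℝ, 0 ≤ m ∧ ∃ X₀ : ℕ, ∀ X ≥ X₀, ∀ τ ∈ p.T X, ∃ t : Finset (Pol 5), (t.card : ℝ) ≤ m ∧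
      ∀ τ' ∈ p.T X, τ'.base = τ.base → τ.same τ' → τ' ∈ t ∧ p.w X τ' ≤ 1 * p.w X τ := by
  classical
  have hT : ∀ (X : ℕ) (τ : Pol 5), τ ∈ p.T X → p.TS X τ := by
    intro X τ hτ
    unfold Par.T at hτ
    split_ifs at hτ with h1
    · exact h1.mem_toFinset.1 hτ
    · exact absurd hτ (Finset.notMem_empty _)
  set B : ℤ := ⌊6 / p.c1⌋ with hB
  set I : Finset ℤ := Finset.Icc (-B) B with hI
  refine ⟨(((I ×ˢ I) ×ˢ (I ×ˢ I)).card : ℝ), Nat.cast_nonneg _, 1, ?_⟩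
  intro X hX τ hτ
  refine ⟨((I ×ˢ I) ×ˢ (I ×ˢ I)).image (t5_phi τ), by exact_mod_cast Finset.card_image_le, ?_⟩
  intro τ' hτ' hb hs0
  have hs : ∀ k : Fin 5, k = 2 ∨ k = 3 ∨ k = 4 → τ'.ch k = τ.ch k ∨ τ'.ch k = -τ.ch k := by
    rintro k (rfl | rfl | rfl)
    · exact Or.inl hs0.1
    · exact Or.inl hs0.2.1
    · exact Or.inl hs0.2.2
  have h1 := hT X τ hτ
  have h2 := hT X τ' hτ'
  obtain ⟨hd, hq, hbf⟩ := t5_data h1 h2 hb hs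
  refine ⟨?_, by rw [t5_w hd hq, one_mul]⟩
  have hX1 : (1 : ℤ) ≤ X := by exact_mod_cast hX
  have hd0 : τ.d 0 ≠ 0 := h1.good.ne 0
  -- the sign of `d_0`
  have sg : τ'.d 0 = τ.d 0 ∨ τ'.d 0 = -τ.d 0 := Int.natAbs_eq_natAbs_iff.1 (hd 0)
  -- the size of the two new vectors
  have nmb : ∀ j, nm (τ'.u j) ≤ 3 * nm (τ.u j) := fun j =>
    t5_nm hX1 h1.ha1 h1.ha2 h1.hb1 h1.hb2 h1.good.disc h2.ha1 h2.ha2 h2.hb1 h2.hb2 h2.good.disc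
      (h1.gp.pos1 j) (h1.gp.pos2 j) (h2.gp.pos1 j) (h2.gp.pos2 j) (hq j)
  have f1 : ∀ j, (τ'.u j).1 ≤ 3 * nm (τ.u j) := fun j => by
    have a1 := nmb j
    have a2 := h2.gp.pos2 j
    unfold nm at a1 ⊢
    linarith
  have f2 : ∀ j, (τ'.u j).2 ≤ 3 * nm (τ.u j) := fun j => by
    have a1 := nmb j
    have a2 := h2.gp.pos1 j
    unfold nm at a1 ⊢
    linarith
  -- the chords with a sign, all vertices
  have hch : ∀ k : Fin 5, (τ'.ch k = τ.ch k ∧ τ'.d 0 = τ.d 0) ∨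
      (τ'.ch k = -τ.ch k ∧ τ'.d 0 = τ.d 0) ∨ (τ'.ch k = τ.ch k ∧ τ'.d 0 = -τ.d 0) ∨
      (τ'.ch k = -τ.ch k ∧ τ'.d 0 = -τ.d 0) := by
    have hk : ∀ k : Fin 5, τ'.ch k = τ.ch k ∨ τ'.ch k = -τ.ch k := by
      have z : ∀ v : ℤ × ℤ, dt v v = 0 := fun v => by unfold dt; ring
      intro k
      fin_cases k
      · have e1 : ∀ σ : Pol 5, σ.ch 0 = (σ.d 0, 0) := fun σ => by
          show (dt (σ.u 0) (σ.u 1), dt (σ.u 0) (σ.u 0)) = (dt (σ.u 0) (σ.u 1), 0)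
          rw [z]
        show τ'.ch 0 = τ.ch 0 ∨ τ'.ch 0 = -τ.ch 0
        rw [e1, e1]
        rcases sg with e | e <;> rw [e]
        · left; rfl
        · right; simp
      · have e1 : ∀ σ : Pol 5, σ.ch 1 = (0, σ.d 0) := fun σ => by
          show (dt (σ.u 1) (σ.u 1), dt (σ.u 0) (σ.u 1)) = (0, dt (σ.u 0) (σ.u 1))
          rw [z]
        show τ'.ch 1 = τ.ch 1 ∨ τ'.ch 1 = -τ.ch 1
        rw [e1, e1]
        rcases sg with e | e <;> rw [e]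
        · left; rfl
        · right; simp
      · exact hs 2 (by simp)
      · exact hs 3 (by simp)
      · exact hs 4 (by simp)
    intro k
    rcases hk k with e | e <;> rcases sg with e' | e' <;> simp [e, e']
  have i1 : ∀ (σ : Pol 5) (k : Fin 5), σ.d 0 * (σ.u k).1 =
      (σ.ch k).1 * (σ.u 0).1 + (σ.ch k).2 * (σ.u 1).1 := by
    intro σ k
    show dt (σ.u 0) (σ.u 1) * (σ.u k).1 =
      dt (σ.u k) (σ.u 1) * (σ.u 0).1 + dt (σ.u 0) (σ.u k) * (σ.u 1).1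
    unfold dt
    ring
  have i2 : ∀ (σ : Pol 5) (k : Fin 5), σ.d 0 * (σ.u k).2 =
      (σ.ch k).1 * (σ.u 0).2 + (σ.ch k).2 * (σ.u 1).2 := by
    intro σ k
    show dt (σ.u 0) (σ.u 1) * (σ.u k).2 =
      dt (σ.u k) (σ.u 1) * (σ.u 0).2 + dt (σ.u 0) (σ.u k) * (σ.u 1).2
    unfold dt
    ring
  -- `ch_k(τ) . (row of u_0', u_1') = ± d_0 (u_k')`
  have g1 : ∀ k : Fin 5, (τ.ch k).1 * (τ'.u 0).1 + (τ.ch k).2 * (τ'.u 1).1 =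
      τ.d 0 * (τ'.u k).1 ∨ (τ.ch k).1 * (τ'.u 0).1 + (τ.ch k).2 * (τ'.u 1).1 =
      -(τ.d 0 * (τ'.u k).1) := by
    intro k
    have e0 := i1 τ' k
    rcases hch k with ⟨e1, e2⟩ | ⟨e1, e2⟩ | ⟨e1, e2⟩ | ⟨e1, e2⟩ <;> rw [e1, e2] at e0 <;>
      try simp only [Prod.fst_neg, Prod.snd_neg] at e0
    · left; linarith
    · right; linarith
    · right; linarith
    · left; linarith
  have g2 : ∀ k : Fin 5, (τ.ch k).1 * (τ'.u 0).2 + (τ.ch k).2 * (τ'.u 1).2 =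
      τ.d 0 * (τ'.u k).2 ∨ (τ.ch k).1 * (τ'.u 0).2 + (τ.ch k).2 * (τ'.u 1).2 =
      -(τ.d 0 * (τ'.u k).2) := by
    intro k
    have e0 := i2 τ' k
    rcases hch k with ⟨e1, e2⟩ | ⟨e1, e2⟩ | ⟨e1, e2⟩ | ⟨e1, e2⟩ <;> rw [e1, e2] at e0 <;>
      try simp only [Prod.fst_neg, Prod.snd_neg] at e0
    · left; linarith
    · right; linarith
    · right; linarith
    · left; linarith
  -- integrality
  have hcop : IsCoprime (dt (τ.u 0) (τ.u 1)) (dt (τ.u 1) (τ.u 2)) := h1.gp.cop 0 1 (by decide)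
  have hv1 : dt (τ.u 0) (τ.u 1) ∣ dt (τ.u 2) (τ.u 1) * (τ'.u 0).1 +
      dt (τ.u 0) (τ.u 2) * (τ'.u 1).1 := by
    rcases g1 2 with e | e
    · exact ⟨(τ'.u 2).1, e⟩
    · exact ⟨-(τ'.u 2).1, by rw [mul_neg]; exact e⟩
  have hv2 : dt (τ.u 0) (τ.u 1) ∣ dt (τ.u 2) (τ.u 1) * (τ'.u 0).2 +
      dt (τ.u 0) (τ.u 2) * (τ'.u 1).2 := by
    rcases g2 2 with e | e
    · exact ⟨(τ'.u 2).2, e⟩
    · exact ⟨-(τ'.u 2).2, by rw [mul_neg]; exact e⟩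
  obtain ⟨⟨P, hP⟩, ⟨Q, hQ⟩⟩ := t5_int hcop hv1
  obtain ⟨⟨R, hR⟩, ⟨S, hS⟩⟩ := t5_int hcop hv2
  have hsep : p.c1 * ((nm (τ.u 0) : ℝ) * (nm (τ.u 1) : ℝ)) ≤ |(dt (τ.u 0) (τ.u 1) : ℝ)| := by
    refine (h1.gp.sep 0 1 (by decide)).trans ((le_abs_self _).trans ?_)
    rw [abs_mul]
    rcases h.sg1 0 1 with e | e <;> rw [e] <;> simp
  have hd0' : dt (τ.u 0) (τ.u 1) ≠ 0 := hd0
  have sz : ∀ z : ℤ, (|z| : ℝ) ≤ 6 / p.c1 → z ∈ I := by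
    intro z hz
    rw [hI, Finset.mem_Icc, ← abs_le, hB, Int.le_floor]
    exact_mod_cast hz
  have sP := sz P (t5_size h.c10 (h1.gp.pos1 0) (h1.gp.pos2 0) (h1.gp.pos1 1) (h1.gp.pos2 1)
    (h2.gp.pos1 0) (h2.gp.pos1 1) (f1 0) (f1 1) hsep hd0' (Or.inl hP.symm))
  have sQ := sz Q (t5_size h.c10 (h1.gp.pos1 0) (h1.gp.pos2 0) (h1.gp.pos1 1) (h1.gp.pos2 1)
    (h2.gp.pos1 0) (h2.gp.pos1 1) (f1 0) (f1 1) hsep hd0' (Or.inr hQ.symm))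
  have sR := sz R (t5_size h.c10 (h1.gp.pos1 0) (h1.gp.pos2 0) (h1.gp.pos1 1) (h1.gp.pos2 1)
    (h2.gp.pos2 0) (h2.gp.pos2 1) (f2 0) (f2 1) hsep hd0' (Or.inl hR.symm))
  have sS := sz S (t5_size h.c10 (h1.gp.pos1 0) (h1.gp.pos2 0) (h1.gp.pos1 1) (h1.gp.pos2 1)
    (h2.gp.pos2 0) (h2.gp.pos2 1) (f2 0) (f2 1) hsep hd0' (Or.inr hS.symm))
  rw [Finset.mem_image]
  refine ⟨((P, Q), (R, S)), by simp only [Finset.mem_product]; exact ⟨⟨sP, sQ⟩, ⟨sR, sS⟩⟩, ?_⟩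
  -- the vectors
  have w1 : ∀ k : Fin 5, |P * (τ.u k).1 + Q * (τ.u k).2| = (τ'.u k).1 := by
    intro k
    have e1 : τ.d 0 * (P * (τ.u k).1 + Q * (τ.u k).2) =
        (τ.ch k).1 * (τ'.u 0).1 + (τ.ch k).2 * (τ'.u 1).1 := by
      show dt (τ.u 0) (τ.u 1) * (P * (τ.u k).1 + Q * (τ.u k).2) =
        dt (τ.u k) (τ.u 1) * (τ'.u 0).1 + dt (τ.u 0) (τ.u k) * (τ'.u 1).1
      have : dt (τ.u 0) (τ.u 1) * (P * (τ.u k).1 + Q * (τ.u k).2) =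
        (dt (τ.u 0) (τ.u 1) * P) * (τ.u k).1 + (dt (τ.u 0) (τ.u 1) * Q) * (τ.u k).2 := by ring
      rw [this, ← hP, ← hQ]
      unfold dt
      ring
    rcases g1 k with e | e
    · rw [e] at e1
      rw [mul_left_cancel₀ hd0 e1]
      exact abs_of_pos (h2.gp.pos1 k)
    · rw [e, ← mul_neg] at e1
      rw [mul_left_cancel₀ hd0 e1, abs_neg]
      exact abs_of_pos (h2.gp.pos1 k)
  have w2 : ∀ k : Fin 5, |R * (τ.u k).1 + S * (τ.u k).2| = (τ'.u k).2 := by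
    intro k
    have e1 : τ.d 0 * (R * (τ.u k).1 + S * (τ.u k).2) =
        (τ.ch k).1 * (τ'.u 0).2 + (τ.ch k).2 * (τ'.u 1).2 := by
      show dt (τ.u 0) (τ.u 1) * (R * (τ.u k).1 + S * (τ.u k).2) =
        dt (τ.u k) (τ.u 1) * (τ'.u 0).2 + dt (τ.u 0) (τ.u k) * (τ'.u 1).2
      have : dt (τ.u 0) (τ.u 1) * (R * (τ.u k).1 + S * (τ.u k).2) =
        (dt (τ.u 0) (τ.u 1) * R) * (τ.u k).1 + (dt (τ.u 0) (τ.u 1) * S) * (τ.u k).2 := by ring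
      rw [this, ← hR, ← hS]
      unfold dt
      ring
    rcases g2 k with e | e
    · rw [e] at e1
      rw [mul_left_cancel₀ hd0 e1]
      exact abs_of_pos (h2.gp.pos2 k)
    · rw [e, ← mul_neg] at e1
      rw [mul_left_cancel₀ hd0 e1, abs_neg]
      exact abs_of_pos (h2.gp.pos2 k)
  -- the form
  have dsq : τ'.d 0 ^ 2 = τ.d 0 ^ 2 := by
    rcases sg with e | e <;> rw [e]
    ring
  have hq0 := hq 0
  have hq1 := hq 1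
  have va : τ.a * S ^ 2 - 2 * τ.b * S * R + τ.c * R ^ 2 = τ'.a := by
    have e1 : τ.d 0 ^ 2 * (τ.a * S ^ 2 - 2 * τ.b * S * R + τ.c * R ^ 2) =
        (τ'.u 1).2 ^ 2 * τ.q 0 - 2 * (τ'.u 1).2 * (τ'.u 0).2 *
          bf τ.a τ.b τ.c (τ.u 0) (τ.u 1) + (τ'.u 0).2 ^ 2 * τ.q 1 := by
      have e2 : τ.d 0 ^ 2 * (τ.a * S ^ 2 - 2 * τ.b * S * R + τ.c * R ^ 2) =
        τ.a * (τ.d 0 * S) ^ 2 - 2 * τ.b * (τ.d 0 * S) * (τ.d 0 * R) + τ.c * (τ.d 0 * R) ^ 2 := by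
        ring
      have e3 : τ.d 0 * S = (τ'.u 1).2 * (τ.u 0).1 - (τ'.u 0).2 * (τ.u 1).1 := hS.symm
      have e4 : τ.d 0 * R = (τ'.u 0).2 * (τ.u 1).2 - (τ'.u 1).2 * (τ.u 0).2 := hR.symm
      rw [e2, e3, e4]
      unfold Pol.q qf bf
      ring
    have e5 : τ'.d 0 ^ 2 * τ'.a = (τ'.u 1).2 ^ 2 * τ'.q 0 - 2 * (τ'.u 1).2 * (τ'.u 0).2 *
          bf τ'.a τ'.b τ'.c (τ'.u 0) (τ'.u 1) + (τ'.u 0).2 ^ 2 * τ'.q 1 := by
      show dt (τ'.u 0) (τ'.u 1) ^ 2 * τ'.a = (τ'.u 1).2 ^ 2 * qf τ'.a τ'.b τ'.c (τ'.u 0) -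
        2 * (τ'.u 1).2 * (τ'.u 0).2 *
          bf τ'.a τ'.b τ'.c (τ'.u 0) (τ'.u 1) + (τ'.u 0).2 ^ 2 * qf τ'.a τ'.b τ'.c (τ'.u 1)
      unfold qf bf dt
      ring
    rw [hq0, hq1, hbf, ← e1, dsq] at e5
    exact (mul_left_cancel₀ (pow_ne_zero 2 hd0) e5).symm
  have vc : τ.a * Q ^ 2 - 2 * τ.b * Q * P + τ.c * P ^ 2 = τ'.c := by
    have e1 : τ.d 0 ^ 2 * (τ.a * Q ^ 2 - 2 * τ.b * Q * P + τ.c * P ^ 2) =
        (τ'.u 1).1 ^ 2 * τ.q 0 - 2 * (τ'.u 1).1 * (τ'.u 0).1 *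
          bf τ.a τ.b τ.c (τ.u 0) (τ.u 1) + (τ'.u 0).1 ^ 2 * τ.q 1 := by
      have e2 : τ.d 0 ^ 2 * (τ.a * Q ^ 2 - 2 * τ.b * Q * P + τ.c * P ^ 2) =
        τ.a * (τ.d 0 * Q) ^ 2 - 2 * τ.b * (τ.d 0 * Q) * (τ.d 0 * P) + τ.c * (τ.d 0 * P) ^ 2 := by
        ring
      have e3 : τ.d 0 * Q = (τ'.u 1).1 * (τ.u 0).1 - (τ'.u 0).1 * (τ.u 1).1 := hQ.symm
      have e4 : τ.d 0 * P = (τ'.u 0).1 * (τ.u 1).2 - (τ'.u 1).1 * (τ.u 0).2 := hP.symm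
      rw [e2, e3, e4]
      unfold Pol.q qf bf
      ring
    have e5 : τ'.d 0 ^ 2 * τ'.c = (τ'.u 1).1 ^ 2 * τ'.q 0 - 2 * (τ'.u 1).1 * (τ'.u 0).1 *
          bf τ'.a τ'.b τ'.c (τ'.u 0) (τ'.u 1) + (τ'.u 0).1 ^ 2 * τ'.q 1 := by
      show dt (τ'.u 0) (τ'.u 1) ^ 2 * τ'.c = (τ'.u 1).1 ^ 2 * qf τ'.a τ'.b τ'.c (τ'.u 0) -
        2 * (τ'.u 1).1 * (τ'.u 0).1 *
          bf τ'.a τ'.b τ'.c (τ'.u 0) (τ'.u 1) + (τ'.u 0).1 ^ 2 * qf τ'.a τ'.b τ'.c (τ'.u 1)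
      unfold qf bf dt
      ring
    rw [hq0, hq1, hbf, ← e1, dsq] at e5
    exact (mul_left_cancel₀ (pow_ne_zero 2 hd0) e5).symm
  have vb : -(τ.a * S * Q) + τ.b * (S * P + R * Q) - τ.c * R * P = τ'.b := by
    have e1 : τ.d 0 ^ 2 * (-(τ.a * S * Q) + τ.b * (S * P + R * Q) - τ.c * R * P) =
        -((τ'.u 1).2 * (τ'.u 1).1) * τ.q 0 + ((τ'.u 1).2 * (τ'.u 0).1 +
          (τ'.u 0).2 * (τ'.u 1).1) * bf τ.a τ.b τ.c (τ.u 0) (τ.u 1) -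
          ((τ'.u 0).2 * (τ'.u 0).1) * τ.q 1 := by
      have e2 : τ.d 0 ^ 2 * (-(τ.a * S * Q) + τ.b * (S * P + R * Q) - τ.c * R * P) =
        -(τ.a * (τ.d 0 * S) * (τ.d 0 * Q)) + τ.b * ((τ.d 0 * S) * (τ.d 0 * P) +
          (τ.d 0 * R) * (τ.d 0 * Q)) - τ.c * (τ.d 0 * R) * (τ.d 0 * P) := by
        ring
      have e3 : τ.d 0 * Q = (τ'.u 1).1 * (τ.u 0).1 - (τ'.u 0).1 * (τ.u 1).1 := hQ.symm
      have e4 : τ.d 0 * P = (τ'.u 0).1 * (τ.u 1).2 - (τ'.u 1).1 * (τ.u 0).2 := hP.symm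
      have e6 : τ.d 0 * S = (τ'.u 1).2 * (τ.u 0).1 - (τ'.u 0).2 * (τ.u 1).1 := hS.symm
      have e7 : τ.d 0 * R = (τ'.u 0).2 * (τ.u 1).2 - (τ'.u 1).2 * (τ.u 0).2 := hR.symm
      rw [e2, e3, e4, e6, e7]
      unfold Pol.q qf bf
      ring
    have e5 : τ'.d 0 ^ 2 * τ'.b = -((τ'.u 1).2 * (τ'.u 1).1) * τ'.q 0 +
        ((τ'.u 1).2 * (τ'.u 0).1 + (τ'.u 0).2 * (τ'.u 1).1) *
          bf τ'.a τ'.b τ'.c (τ'.u 0) (τ'.u 1) - ((τ'.u 0).2 * (τ'.u 0).1) * τ'.q 1 := by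
      show dt (τ'.u 0) (τ'.u 1) ^ 2 * τ'.b =
        -((τ'.u 1).2 * (τ'.u 1).1) * qf τ'.a τ'.b τ'.c (τ'.u 0) +
        ((τ'.u 1).2 * (τ'.u 0).1 + (τ'.u 0).2 * (τ'.u 1).1) *
          bf τ'.a τ'.b τ'.c (τ'.u 0) (τ'.u 1) -
          ((τ'.u 0).2 * (τ'.u 0).1) * qf τ'.a τ'.b τ'.c (τ'.u 1)
      unfold qf bf dt
      ring
    rw [hq0, hq1, hbf, ← e1, dsq] at e5
    exact (mul_left_cancel₀ (pow_ne_zero 2 hd0) e5).symm
  obtain ⟨a', b', c', u'⟩ := τ'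
  unfold t5_phi
  rw [Pol.mk.injEq]
  refine ⟨va, vb, vc, ?_⟩
  funext k
  exact Prod.ext (w1 k) (w2 k)

end Pool.Agent.PENT
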